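import Pool.Agent.L0h22.UY.Stm
import Pool.Agent.L0h22.UB.UFew

/-!
Project UY (helper22), module ONE (by helper85): few parameters have few nontrivial symbols.
-/

set_option autoImplicit false
set_option linter.all false

open Polynomial IsDedekindDomain Filter
open scoped Classical

namespace Pool.Agent.L0h85.UY

open Pool.Agent.L0h22.AS Pool.Agent.L0h22.TC Pool.Agent.L0h22.UB Pool.Agent.L0h22.UY

section

variable {k : Type} [Field k] [Finite k]
variable {S₀ : Finset k[X]} {R₀ : k[X] → k[X]} (one : k[X] → k[X] → ZMod 2)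
  (hone : ∀ ρ : k[X], Irreducible ρ → ρ.Monic → ρ ∉ S₀ →
    (∀ r r' : k[X], one ρ (r + r') = one ρ r + one ρ r') ∧
    ∃ r : k[X], r.natDegree < ρ.natDegree ∧ one ρ r = 1)

include hone in
/-- Less than one eighth of the symbols are nontrivial: at most `(3 / 4) ^ n` of the parameters. -/
theorem few_eighth {N : ℕ} {S : Finset k[X]} (hS : S ∈ Pool.Agent.L0h22.TC.Sub k S₀ N) :
    (((Om S₀ R₀ N).filter fun R => 8 * (S.filter fun ρ => one ρ (R ρ) = 1).card < S.card).card : ℝ) ≤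
      (3 / 4) ^ S.card * (Om S₀ R₀ N).card := by
  have h1 : (Om S₀ R₀ N).filter (fun R => 8 * (S.filter fun ρ => one ρ (R ρ) = 1).card < S.card) ⊆
      (S.powerset.filter fun J => 8 * J.card < S.card).biUnion fun J =>
        (Om S₀ R₀ N).filter fun R => (S.filter fun ρ => one ρ (R ρ) = 1) = J := by
    intro R hR
    obtain ⟨h3, h4⟩ := Finset.mem_filter.1 hR
    exact Finset.mem_biUnion.2 ⟨_, Finset.mem_filter.2 ⟨Finset.mem_powerset.2
      (Finset.filter_subset _ _), h4⟩, Finset.mem_filter.2 ⟨h3, rfl⟩⟩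
  have h3 := (Finset.card_le_card h1).trans Finset.card_biUnion_le
  have h4 : (((Om S₀ R₀ N).filter fun R =>
      8 * (S.filter fun ρ => one ρ (R ρ) = 1).card < S.card).card : ℝ) ≤
      ∑ J ∈ S.powerset.filter (fun J => 8 * J.card < S.card), (((Om S₀ R₀ N).filter fun R =>
        (S.filter fun ρ => one ρ (R ρ) = 1) = J).card : ℝ) := by exact_mod_cast h3
  refine h4.trans ?_
  have h5 : ∀ J ∈ S.powerset.filter (fun J => 8 * J.card < S.card),
      (((Om S₀ R₀ N).filter fun R =>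
        (S.filter fun ρ => one ρ (R ρ) = 1) = J).card : ℝ) ≤
      (Om S₀ R₀ N).card * (1 / 2) ^ S.card * ((5 / 4) ^ S.card * (1 / 5) ^ J.card) := by
    intro J hJ
    obtain ⟨h6, h7⟩ := Finset.mem_filter.1 hJ
    rw [card_pat one hone hS (Finset.mem_powerset.1 h6)]
    have h8 : (1 : ℝ) ≤ (5 / 4) ^ S.card * (1 / 5) ^ J.card := by
      calc (1 : ℝ) ≤ ((5 / 4) ^ 8 * (1 / 5)) ^ J.card := one_le_pow₀ (by norm_num)
        _ = (5 / 4) ^ (8 * J.card) * (1 / 5) ^ J.card := by rw [mul_pow, ← pow_mul]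
        _ ≤ (5 / 4) ^ S.card * (1 / 5) ^ J.card :=
          mul_le_mul_of_nonneg_right (pow_le_pow_right₀ (by norm_num) h7.le) (by positivity)
    exact le_mul_of_one_le_right (by positivity) h8
  refine (Finset.sum_le_sum h5).trans ?_
  refine (Finset.sum_le_sum_of_subset_of_nonneg (Finset.filter_subset _ _)
    (fun J _ _ => by positivity)).trans ?_
  rw [← Finset.mul_sum, ← Finset.mul_sum]
  have h9 : ∑ J ∈ S.powerset, (1 / 5 : ℝ) ^ J.card = (6 / 5) ^ S.card := by
    have := Finset.sum_pow_mul_eq_add_pow (1 / 5 : ℝ) 1 S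
    simp only [one_pow, mul_one] at this
    rw [this]
    norm_num
  rw [h9]
  have h10 : (3 / 4 : ℝ) ^ S.card = (1 / 2) ^ S.card * ((5 / 4) ^ S.card * (6 / 5) ^ S.card) := by
    rw [← mul_pow, ← mul_pow]
    norm_num
  rw [h10]
  exact le_of_eq (by ring)

end

theorem t_ONE : S_ONE := by
  intro k _ _ h2 S₀ hP ε hε
  obtain ⟨n₁, hn₁⟩ : ∃ n₁ : ℕ, (3 / 4 : ℝ) ^ n₁ < ε := exists_pow_lt_of_lt_one hε (by norm_num)
  refine ⟨n₁, fun R₀ one hone N S hS hn => ?_⟩
  refine (few_eighth one hone hS).trans (mul_le_mul_of_nonneg_right ?_ (Nat.cast_nonneg _))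
  exact (pow_le_pow_of_le_one (by norm_num) (by norm_num) hn).trans hn₁.le

end Pool.Agent.L0h85.UY
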